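import Pool.Agent.Q286.IX.Stm
import Pool.Agent.Q149.EW.Tst

/-! # Several test functions with weights (job IX-TST) -/

set_option autoImplicit false
set_option linter.all false
set_option maxHeartbeats 2000000

open Complex Filter Topology Set MeasureTheory
open scoped ComplexConjugate

namespace Pool.Agent.Q149.IX

open Pool.Agent Pool.Agent.Y23.G Pool.Agent.Q286.EW Pool.Agent.Q286.IX Pool.Agent.Q149.EW
open Pool.Agent.Y23 (TT Fa N2 TT_mul_exp plancherel int_TT_sq TT_add TT_smul)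

set_option maxHeartbeats 4000000 in
/-- one test function, with the kernel fixed -/
theorem one (hcut : S_CutU) (hker : S_Ker) [L : LFun] (A h : ℝ) (hA : 0 ≤ A) (hh : 0 < h) :
    ∃ (B c0 Ck P0 : ℝ) (κ : ℝ → ℂ), 0 ≤ B ∧ 0 < c0 ∧ 0 < Ck ∧ 0 < P0 ∧
      (∀ u : ℂ, |u.re| ≤ 1 → ‖TT κ u‖ ≤ Ck / (1 + |u.im|) ^ 3) ∧
      (∀ u : ℂ, ‖u‖ ≤ 2 → c0 ≤ (TT κ u * (starRingEnd ℂ) (TT κ (-(starRingEnd ℂ) u))).re) ∧
      ∀ (k a γ K τ : ℝ) (ν : ℕ∞) (F0 : ℂ → ℂ), k ≤ 1 + Real.log (2 * Real.pi) → 1 ≤ a → h ≤ a →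
        1 ≤ K → Differentiable ℂ F0 →
        (∀ w, ‖F0 w‖ ≤ K * Real.exp (Ek L.m k A |w.re|) / (1 + w.im ^ 2)) →
        K * Real.exp (B * (1 + a + |k|) - ck L.m k * Real.exp (2 * (a - h) / L.m)) ≤ τ → τ ≤ 1 →
        (∀ j : ℤ, ν < (j.natAbs : ℕ∞) → ‖F0 (F.nd a j)‖ ≤ τ ∧ 2 * |γ| ≤ |(F.nd a j).im|) →
        ∃ g : ℝ → ℂ, F.Hn a ν g ∧ N2 g ≤ Real.exp (B * (1 + a + |k|)) * K ^ 2 ∧
          ∀ w : ℂ, |w.re| ≤ 1 → ‖TT g w - F0 w * TT κ (-(γ * I) + w)‖ ≤
            P0 * Real.exp (2 * a) * τ * (1 / (1 + |w.im|) + 1 / (1 + |w.im - γ|)) := by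
  have hm : (1 : ℝ) ≤ L.m := by exact_mod_cast L.raw.hm
  obtain ⟨B1, hB1, hc0'⟩ := hcut L.m A 1 hm hA zero_le_one
  obtain ⟨κ, Ck, c0, hCk, hc0, hκF, hκb, hκd, hκp⟩ := hker h hh
  obtain ⟨Cp, hCp, hproj⟩ := F.proj
  set D0 : ℝ := Real.exp (A + A * Real.log 2) + 1 with hD0
  have hD0p : 0 < D0 := by positivity
  set P0 : ℝ := 2 * (16 * Cp * Ck + Ck) with hP0
  have hP0p : 0 < P0 := by positivity
  set CN : ℝ := (D0 * Ck) ^ 2 + Cp * (16 * Ck) ^ 2 * 24 with hCN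
  have hCNp : 0 < CN := by positivity
  refine ⟨B1 + 4 + CN, c0, Ck, P0, κ, by positivity, hc0, hCk, hP0p, hκd, hκp, ?_⟩
  intro k a γ K τ ν F0 hk ha hha hK hFd hFb hKτ hτ1 hnode
  have hc := hc0' k hk
  have hfin : CN * Real.exp ((B1 + 4) * a) ≤ Real.exp ((B1 + 4 + CN) * (1 + a + |k|)) := by
    have h1 : CN ≤ Real.exp CN := by linarith [Real.add_one_le_exp CN]
    calc CN * Real.exp ((B1 + 4) * a) ≤ Real.exp CN * Real.exp ((B1 + 4) * a) :=
          mul_le_mul_of_nonneg_right h1 (Real.exp_pos _).le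
      _ = Real.exp (CN + (B1 + 4) * a) := (Real.exp_add _ _).symm
      _ ≤ _ := by
          apply Real.exp_le_exp.2
          have e1 : 0 ≤ (B1 + 4) * (1 + |k|) := by positivity
          have e2 : 0 ≤ CN * (a + |k|) := mul_nonneg (by positivity) (by linarith [abs_nonneg k])
          nlinarith
  have ha0 : 0 < a := by linarith
  have hK0 : 0 < K := by linarith
  have hτ0 : 0 < τ := lt_of_lt_of_le (by positivity) hKτ
  set E : ℝ := ck L.m k * Real.exp (2 * (a - h) / L.m) with hE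
  obtain ⟨f, hf, -, hfT0⟩ := hc K F0 hK0 hFd hFb (a - h) (by linarith)
  have hfT : ∀ w : ℂ, |w.re| ≤ 1 → ‖TT f w - F0 w‖ ≤ τ := by
    intro w hw
    refine (hfT0 w hw).trans (le_trans ?_ hKτ)
    refine mul_le_mul_of_nonneg_left ?_ hK0.le
    rw [← hE]
    apply Real.exp_le_exp.2
    have e1 : 0 ≤ B1 * h := mul_nonneg hB1 hh.le
    have e2 : 0 ≤ (4 + CN) * (1 + a + |k|) := mul_nonneg (by positivity) (by linarith [abs_nonneg k])
    nlinarith
  -- the bound on the line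
  have hFl : ∀ v : ℝ, ‖F0 (v * I)‖ ≤ K * Real.exp (A + A * Real.log 2) := by
    intro v
    have e1 : ((v : ℂ) * I).im = v := by simp
    have e2 : ((v : ℂ) * I).re = 0 := by simp
    have h1 := hFb (v * I)
    rw [e1, e2, abs_zero] at h1
    have e3 : Ek L.m k A 0 = A + A * Real.log 2 := by unfold Ek; simp
    rw [e3] at h1
    refine h1.trans (div_le_self (by positivity) (by nlinarith [sq_nonneg v]))
  have hfl : ∀ v : ℝ, ‖TT f (v * I)‖ ≤ K * D0 := by
    intro v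
    have e2 : ((v : ℂ) * I).re = 0 := by simp
    have h1 := hfT (v * I) (by rw [e2, abs_zero]; exact zero_le_one)
    have h2 := hFl v
    have h3 : ‖TT f (v * I)‖ ≤ ‖TT f (v * I) - F0 (v * I)‖ + ‖F0 (v * I)‖ := by
      have := norm_add_le (TT f (v * I) - F0 (v * I)) (F0 (v * I))
      rwa [sub_add_cancel] at this
    rw [hD0, mul_add, mul_one]
    linarith
  obtain ⟨G, hG, hGT, hGN⟩ := conv_part (γ := γ) hh hha (by positivity : 0 ≤ K * D0) hCk hf hκF hκb hκd hfl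
  -- the values of the kernel
  set T : ℂ → ℂ := fun w => TT κ (-(γ * I) + w) with hT
  have hTb : ∀ w : ℂ, |w.re| ≤ 1 → ‖T w‖ ≤ Ck / (1 + |w.im - γ|) ^ 3 := by
    intro w hw
    have e1 : (-(γ * I) + w).re = w.re := by simp
    have e2 : (-(γ * I) + w).im = w.im - γ := by simp; ring
    have h1 := hκd (-(γ * I) + w) (by rw [e1]; exact hw)
    rwa [e2] at h1
  have hTb' : ∀ w : ℂ, |w.re| ≤ 1 → ‖T w‖ ≤ Ck * (1 / (1 + |w.im - γ|)) := fun w hw =>
    (hTb w hw).trans (cube_le _ hCk.le)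
  -- the nodes
  have hnd : ∀ j : ℤ, ν < (j.natAbs : ℕ∞) → ‖TT G (F.nd a j)‖ ≤ (16 * Ck * τ) / (1 + |(F.nd a j).im|) ^ 3 := by
    intro j hj
    obtain ⟨h1, h2⟩ := hnode j hj
    have hre : |(F.nd a j).re| ≤ 1 := by rw [F.nd_re, abs_zero]; exact zero_le_one
    have h3 := hfT _ hre
    have h4 := hTb _ hre
    have h5 := node_bound h2
    have h6 : ‖TT f (F.nd a j)‖ ≤ 2 * τ := by
      have := norm_add_le (TT f (F.nd a j) - F0 (F.nd a j)) (F0 (F.nd a j))
      rw [sub_add_cancel] at this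
      linarith
    have h7 : ‖T (F.nd a j)‖ ≤ Ck * (8 / (1 + |(F.nd a j).im|) ^ 3) := by
      refine h4.trans ?_
      rw [← mul_one_div]
      exact mul_le_mul_of_nonneg_left h5 hCk.le
    rw [hGT, norm_mul]
    calc _ ≤ (2 * τ) * (Ck * (8 / (1 + |(F.nd a j).im|) ^ 3)) :=
          mul_le_mul h6 h7 (norm_nonneg _) (by positivity)
      _ = _ := by ring
  obtain ⟨g, hg, hgT, hgN⟩ := hproj a ν G (16 * Ck * τ) ha (by positivity) hG hnd
  have hexp1 : 1 ≤ Real.exp a := Real.one_le_exp ha0.le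
  have hexpB : Real.exp a ≤ Real.exp ((B1 + 4) * a) := by
    apply Real.exp_le_exp.2
    nlinarith
  refine ⟨g, hg, ?_, ?_⟩
  · -- the norm
    have h1 : 2 * N2 G ≤ (D0 * Ck) ^ 2 * K ^ 2 := by
      have : (K * D0 * Ck) ^ 2 = (D0 * Ck) ^ 2 * K ^ 2 := by ring
      linarith
    have h2 : Cp * a ^ 4 * (16 * Ck * τ) ^ 2 ≤ Cp * (16 * Ck) ^ 2 * 24 * Real.exp a := by
      have h3 := four_le_exp ha0.le
      have h4 : τ ^ 2 ≤ 1 := by nlinarith
      have h5 : 0 ≤ Cp * (16 * Ck) ^ 2 := by positivity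
      calc Cp * a ^ 4 * (16 * Ck * τ) ^ 2 = Cp * (16 * Ck) ^ 2 * (a ^ 4 * τ ^ 2) := by ring
        _ ≤ Cp * (16 * Ck) ^ 2 * (24 * Real.exp a * 1) := by
            refine mul_le_mul_of_nonneg_left ?_ h5
            exact mul_le_mul h3 h4 (sq_nonneg _) (by positivity)
        _ = _ := by ring
    have hK2 : 1 ≤ K ^ 2 := by nlinarith
    have h3 : (D0 * Ck) ^ 2 * K ^ 2 ≤ (D0 * Ck) ^ 2 * (Real.exp ((B1 + 4) * a) * K ^ 2) := by
      refine mul_le_mul_of_nonneg_left ?_ (sq_nonneg _)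
      have : 1 ≤ Real.exp ((B1 + 4) * a) := hexp1.trans hexpB
      nlinarith
    have h4 : Cp * (16 * Ck) ^ 2 * 24 * Real.exp a ≤ Cp * (16 * Ck) ^ 2 * 24 * (Real.exp ((B1 + 4) * a) * K ^ 2) := by
      refine mul_le_mul_of_nonneg_left ?_ (by positivity)
      nlinarith [Real.exp_pos ((B1 + 4) * a)]
    calc N2 g ≤ 2 * N2 G + Cp * a ^ 4 * (16 * Ck * τ) ^ 2 := hgN
      _ ≤ (D0 * Ck) ^ 2 * (Real.exp ((B1 + 4) * a) * K ^ 2) +
          Cp * (16 * Ck) ^ 2 * 24 * (Real.exp ((B1 + 4) * a) * K ^ 2) := by linarith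
      _ = CN * Real.exp ((B1 + 4) * a) * K ^ 2 := by
          rw [hCN]; ring
      _ ≤ _ := mul_le_mul_of_nonneg_right hfin (sq_nonneg K)
  · intro w hw
    set P : ℝ := P0 * Real.exp (2 * a) with hP
    have hPp : 0 < P := by positivity
    have e : TT g w - F0 w * T w = (TT f w - F0 w) * T w - (TT G w - TT g w) := by
      rw [hGT]; ring
    change ‖TT g w - F0 w * T w‖ ≤ _
    rw [e]
    refine (norm_sub_le _ _).trans ?_
    rw [norm_mul]
    have h1 := mul_le_mul (hfT w hw) (hTb' w hw) (norm_nonneg _) hτ0.le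
    have h2 := hgT w
    have h3 : Real.exp (a * |w.re|) ≤ Real.exp a := by
      apply Real.exp_le_exp.2
      nlinarith [abs_nonneg w.re]
    have h4 : Cp * a ^ 2 * (16 * Ck * τ) * Real.exp (a * |w.re|) / (1 + |w.im|) ≤
        (16 * Cp * Ck) * (2 * Real.exp (2 * a)) * τ * (1 / (1 + |w.im|)) := by
      have h5 := sq_le_exp ha0.le
      have h6 : a ^ 2 * Real.exp (a * |w.re|) ≤ 2 * Real.exp (2 * a) := by
        calc a ^ 2 * Real.exp (a * |w.re|) ≤ (2 * Real.exp a) * Real.exp a :=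
              mul_le_mul h5 h3 (Real.exp_pos _).le (by positivity)
          _ = 2 * Real.exp (2 * a) := by
              rw [mul_assoc, ← Real.exp_add]; congr 2; ring
      calc _ = (16 * Cp * Ck) * (a ^ 2 * Real.exp (a * |w.re|)) * τ * (1 / (1 + |w.im|)) := by ring
        _ ≤ _ := by gcongr
    have h7 : τ * (Ck * (1 / (1 + |w.im - γ|))) ≤ Ck * (2 * Real.exp (2 * a)) * τ * (1 / (1 + |w.im - γ|)) := by
      have h8 : 1 ≤ 2 * Real.exp (2 * a) := by
        have := Real.one_le_exp (by linarith : 0 ≤ 2 * a)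
        linarith
      calc τ * (Ck * (1 / (1 + |w.im - γ|))) = Ck * 1 * τ * (1 / (1 + |w.im - γ|)) := by ring
        _ ≤ _ := by gcongr
    have h9 : (16 * Cp * Ck) * (2 * Real.exp (2 * a)) * τ * (1 / (1 + |w.im|)) ≤ P * τ * (1 / (1 + |w.im|)) := by
      refine mul_le_mul_of_nonneg_right (mul_le_mul_of_nonneg_right ?_ hτ0.le) (by positivity)
      rw [hP, hP0]
      have : 0 ≤ Ck * Real.exp (2 * a) := by positivity
      nlinarith
    have h10 : Ck * (2 * Real.exp (2 * a)) * τ * (1 / (1 + |w.im - γ|)) ≤ P * τ * (1 / (1 + |w.im - γ|)) := by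
      refine mul_le_mul_of_nonneg_right (mul_le_mul_of_nonneg_right ?_ hτ0.le) (by positivity)
      rw [hP, hP0]
      have : 0 ≤ Cp * Ck * Real.exp (2 * a) := by positivity
      nlinarith
    rw [mul_add]
    linarith

/-! ### linear combinations -/

lemma lc_Hn {n : ℕ} {a : ℝ} {ν : ℕ∞} {g : Fin n → ℝ → ℂ} (hg : ∀ i, F.Hn a ν (g i)) (c : Fin n → ℂ) :
    F.Hn a ν (lc g c) := by
  classical
  have key : ∀ s : Finset (Fin n), F.Hn a ν (fun x => ∑ i ∈ s, c i * g i x) := by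
    intro s
    induction s using Finset.induction_on with
    | empty => simpa using (F.Hn.zero : F.Hn a ν (fun _ => (0 : ℂ)))
    | insert i s hi ih =>
      simp only [Finset.sum_insert hi]
      exact ((hg i).smul (c i)).add ih
  exact key Finset.univ

lemma lc_TT {n : ℕ} {a : ℝ} {g : Fin n → ℝ → ℂ} (hg : ∀ i, Fa a (g i)) (c : Fin n → ℂ) (w : ℂ) :
    TT (lc g c) w = ∑ i, c i * TT (g i) w := by
  classical
  have key : ∀ s : Finset (Fin n), Fa a (fun x => ∑ i ∈ s, c i * g i x) ∧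
      TT (fun x => ∑ i ∈ s, c i * g i x) w = ∑ i ∈ s, c i * TT (g i) w := by
    intro s
    induction s using Finset.induction_on with
    | empty =>
      refine ⟨by simpa using (Y23.Fa.zero : Fa a (fun _ => (0 : ℂ))), ?_⟩
      simp [TT]
    | insert i s hi ih =>
      simp only [Finset.sum_insert hi]
      refine ⟨((hg i).smul (c i)).add ih.1, ?_⟩
      rw [TT_add ((hg i).smul (c i)) ih.1, TT_smul, ih.2]
  exact (key Finset.univ).2

lemma lc_N2 {n : ℕ} {a : ℝ} {g : Fin n → ℝ → ℂ} (hg : ∀ i, Fa a (g i)) (c : Fin n → ℂ) :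
    N2 (lc g c) ≤ (∑ i, ‖c i‖ ^ 2) * ∑ i, N2 (g i) := by
  have hint : ∀ i, Integrable (fun x => ‖g i x‖ ^ 2) := fun i =>
    (memLp_two_iff_integrable_sq_norm (hg i).1.1).1 (hg i).1
  unfold N2
  rw [← integral_finset_sum _ fun i _ => hint i, ← integral_const_mul]
  refine integral_mono_of_nonneg (Eventually.of_forall fun x => sq_nonneg _)
    ((integrable_finset_sum _ fun i _ => hint i).const_mul _) (Eventually.of_forall fun x => ?_)
  change ‖∑ i, c i * g i x‖ ^ 2 ≤ (∑ i, ‖c i‖ ^ 2) * ∑ i, ‖g i x‖ ^ 2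
  have h1 : ‖∑ i, c i * g i x‖ ≤ ∑ i, ‖c i‖ * ‖g i x‖ := by
    refine (norm_sum_le _ _).trans (le_of_eq (Finset.sum_congr rfl fun i _ => norm_mul _ _))
  calc ‖∑ i, c i * g i x‖ ^ 2 ≤ (∑ i, ‖c i‖ * ‖g i x‖) ^ 2 :=
        pow_le_pow_left₀ (norm_nonneg _) h1 2
    _ ≤ _ := Finset.sum_mul_sq_le_sq_mul_sq _ _ _

/-! ### one zero -/

lemma ptw2 (A1 A2 e1 e2 : ℂ) (ω μ Ck P τ R : ℝ) (hω : |ω| ≤ μ) (hCk : 0 ≤ Ck) (hP : 0 ≤ P)
    (hτ : 0 ≤ τ) (hτ1 : τ ≤ 1) (hR : 0 ≤ R) (h1 : ‖A1‖ ≤ Ck * R) (h2 : ‖A2‖ ≤ Ck * R)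
    (h3 : ‖e1‖ ≤ P * τ * R) (h4 : ‖e2‖ ≤ P * τ * R) :
    ω * ((A1 + e1) * conj (A2 + e2)).re ≤ ω * (A1 * conj A2).re +
      μ * ((2 * Ck * P + P ^ 2) * τ * R ^ 2) := by
  have e : (A1 + e1) * conj (A2 + e2) = A1 * conj A2 +
      (A1 * conj e2 + e1 * conj A2 + e1 * conj e2) := by
    rw [map_add]; ring
  rw [e, Complex.add_re, mul_add]
  refine add_le_add le_rfl ?_
  have hμ : 0 ≤ μ := (abs_nonneg _).trans hω
  have h5 : ‖A1 * conj e2 + e1 * conj A2 + e1 * conj e2‖ ≤ (2 * Ck * P + P ^ 2) * τ * R ^ 2 := by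
    refine (norm_add₃_le).trans ?_
    rw [norm_mul, norm_mul, norm_mul, RCLike.norm_conj, RCLike.norm_conj]
    have g1 : ‖A1‖ * ‖e2‖ ≤ Ck * R * (P * τ * R) := mul_le_mul h1 h4 (norm_nonneg _) (by positivity)
    have g2 : ‖e1‖ * ‖A2‖ ≤ P * τ * R * (Ck * R) := mul_le_mul h3 h2 (norm_nonneg _) (by positivity)
    have g3 : ‖e1‖ * ‖e2‖ ≤ P * τ * R * (P * τ * R) := mul_le_mul h3 h4 (norm_nonneg _) (by positivity)
    have g4 : P * τ * R * (P * τ * R) ≤ P ^ 2 * τ * R ^ 2 := by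
      have g5 : 0 ≤ P ^ 2 * R ^ 2 := by positivity
      have g6 : τ * τ ≤ τ := by nlinarith
      calc _ = P ^ 2 * R ^ 2 * (τ * τ) := by ring
        _ ≤ P ^ 2 * R ^ 2 * τ := mul_le_mul_of_nonneg_left g6 g5
        _ = _ := by ring
    have g7 : (2 * Ck * P + P ^ 2) * τ * R ^ 2 = Ck * R * (P * τ * R) + P * τ * R * (Ck * R) +
        P ^ 2 * τ * R ^ 2 := by ring
    rw [g7]
    linarith
  calc ω * (A1 * conj e2 + e1 * conj A2 + e1 * conj e2).re
      ≤ |ω * (A1 * conj e2 + e1 * conj A2 + e1 * conj e2).re| := le_abs_self _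
    _ = |ω| * |(A1 * conj e2 + e1 * conj A2 + e1 * conj e2).re| := abs_mul _ _
    _ ≤ μ * ((2 * Ck * P + P ^ 2) * τ * R ^ 2) :=
        mul_le_mul hω ((Complex.abs_re_le_norm _).trans h5) (abs_nonneg _) hμ

/-- the main part at a zero -/
lemma main2 {n : ℕ} {κ : ℝ → ℂ} {c0 ω : ℝ} (hc0 : 0 < c0)
    (hκp : ∀ u : ℂ, ‖u‖ ≤ 2 → c0 ≤ (TT κ u * (starRingEnd ℂ) (TT κ (-(starRingEnd ℂ) u))).re)
    {γ s : Fin n → ℝ} (hs : ∀ i, s i = 1 ∨ s i = -1) {F : Fin n → ℂ → ℂ} {w : ℂ} (c : Fin n → ℂ)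
    (h : ∀ i, (F i w = 0 ∧ F i (-(starRingEnd ℂ) w) = 0) ∨
      (‖F i w‖ = 1 ∧ F i (-(starRingEnd ℂ) w) = s i * F i w ∧ s i * ω ≤ 0 ∧ ‖w - γ i * Complex.I‖ ≤ 2))
    (hd : ∀ i j, i ≠ j → F i w = 0 ∨ F j w = 0) (w' : Fin n → ℂ) (hw' : ∀ i, F i (w' i) ≠ 0)
    (hω' : ∀ i, w' i = w → s i * ω ≤ -1) :
    ω * ((∑ i, c i * (F i w * TT κ (-(γ i * I) + w))) *
      conj (∑ i, c i * (F i (-conj w) * TT κ (-(γ i * I) + -conj w)))).re ≤
      ∑ i, ‖c i‖ ^ 2 * (if w' i = w then -c0 else 0) := by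
  classical
  by_cases hall : ∀ i, F i w = 0
  · have h1 : ∀ i, c i * (F i w * TT κ (-(γ i * I) + w)) = 0 := fun i => by
      rw [hall i]; ring
    simp only [h1, Finset.sum_const_zero, zero_mul, Complex.zero_re, mul_zero]
    refine le_of_eq (Finset.sum_eq_zero fun i _ => ?_).symm
    have h2 : w' i ≠ w := fun h3 => hw' i (by rw [h3]; exact hall i)
    rw [if_neg h2, mul_zero]
  · push Not at hall
    obtain ⟨i0, hi0⟩ := hall
    have hz : ∀ j, j ≠ i0 → F j w = 0 := fun j hj => (hd j i0 hj).resolve_right hi0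
    have hz' : ∀ j, j ≠ i0 → F j (-conj w) = 0 := fun j hj => by
      rcases h j with h1 | h1
      · exact h1.2
      · have h2 := h1.1
        rw [hz j hj, norm_zero] at h2
        exact absurd h2 zero_ne_one
    rw [Finset.sum_eq_single i0 (fun j _ hj => by rw [hz j hj]; ring) (fun h1 => absurd (Finset.mem_univ _) h1),
      Finset.sum_eq_single i0 (fun j _ hj => by rw [hz' j hj]; ring) (fun h1 => absurd (Finset.mem_univ _) h1),
      Finset.sum_eq_single i0 (fun j _ hj => by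
        have h2 : w' j ≠ w := fun h3 => hw' j (by rw [h3]; exact hz j hj)
        rw [if_neg h2, mul_zero]) (fun h1 => absurd (Finset.mem_univ _) h1)]
    obtain ⟨h1, h2, h3, h4⟩ := (h i0).resolve_left (fun h1 => hi0 h1.1)
    set T1 : ℂ := TT κ (-(γ i0 * I) + w) with hT1
    set T2 : ℂ := TT κ (-(γ i0 * I) + -conj w) with hT2
    have e2 : -(γ i0 * I) + -conj w = -conj (-(γ i0 * I) + w) := by
      rw [map_add, map_neg, map_mul, Complex.conj_ofReal, Complex.conj_I]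
      ring
    have e3 : ‖-(γ i0 * I) + w‖ ≤ 2 := by
      have : -(γ i0 * I) + w = w - γ i0 * I := by ring
      rw [this]; exact h4
    have h5 : c0 ≤ (T1 * conj T2).re := by
      have := hκp _ e3
      rwa [← e2] at this
    have e4 : c i0 * (F i0 w * T1) * conj (c i0 * (F i0 (-conj w) * T2)) =
        ((‖c i0‖ ^ 2 * s i0 : ℝ) : ℂ) * (T1 * conj T2) := by
      have h6 : F i0 w * conj (F i0 w) = 1 := by
        rw [Complex.mul_conj, Complex.normSq_eq_norm_sq, h1]; norm_num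
      have h7 : c i0 * conj (c i0) = ((‖c i0‖ ^ 2 : ℝ) : ℂ) := by
        rw [Complex.mul_conj, Complex.normSq_eq_norm_sq]
      rw [h2, map_mul, map_mul, map_mul, Complex.conj_ofReal]
      calc _ = (c i0 * conj (c i0)) * (F i0 w * conj (F i0 w)) * (s i0 : ℂ) * (T1 * conj T2) := by ring
        _ = _ := by rw [h6, h7]; push_cast; ring
    rw [e4, Complex.re_ofReal_mul]
    have h8 : 0 ≤ ‖c i0‖ ^ 2 := sq_nonneg _
    have h9 : ω * (‖c i0‖ ^ 2 * s i0 * (T1 * conj T2).re) =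
        ‖c i0‖ ^ 2 * ((s i0 * ω) * (T1 * conj T2).re) := by ring
    rw [h9]
    refine mul_le_mul_of_nonneg_left ?_ h8
    split_ifs with hw
    · have h10 := hω' i0 hw
      nlinarith
    · nlinarith

set_option maxHeartbeats 4000000 in
/-- **TSTS** -/
theorem tstS (hcut : S_CutU) (hker : S_Ker) : S_TstS := by
  classical
  intro L A h hA hh
  obtain ⟨B, c0, Ck, P0, κ, hB, hc0, hCk, hP0, hκd, hκp, hone⟩ := one hcut hker A h hA hh
  obtain ⟨Kz, hKz, hz⟩ := zsum_le (D := zd)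
  set CQ : ℝ := 2 * (2 * Ck * P0 + P0 ^ 2) * Kz * 4 with hCQ
  have hCQp : 0 < CQ := by positivity
  refine ⟨B + 4 + CQ, c0, by positivity, hc0, ?_⟩
  intro k a Γ K τ ν n γ s F0 ω hk ha hha hK hγ hs hFd hFb hKτ hτ1 hnode hWt hzero hex hdis
  have ha0 : 0 < a := by linarith
  have hK0 : 0 < K := by linarith
  have hk0 := abs_nonneg k
  have hτ0 : 0 < τ := lt_of_lt_of_le (by positivity) hKτ
  have hBle : B * (1 + a + |k|) ≤ (B + 4 + CQ) * (1 + a + |k|) :=
    mul_le_mul_of_nonneg_right (by linarith) (by linarith)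
  have hKτ' : K * Real.exp (B * (1 + a + |k|) - ck L.m k * Real.exp (2 * (a - h) / L.m)) ≤ τ := by
    refine le_trans (mul_le_mul_of_nonneg_left (Real.exp_le_exp.2 ?_) hK0.le) hKτ
    linarith
  choose g hg hgN hgT using fun i : Fin n => hone k a (γ i) K τ ν (F0 i) hk ha hha hK (hFd i)
    (hFb i) hKτ' hτ1 (hnode i)
  refine ⟨g, fun c => ⟨lc_Hn hg c, ?_, ?_⟩⟩
  · -- the norm
    refine (lc_N2 (fun i => (hg i).1) c).trans ?_
    have h1 : ∑ i, N2 (g i) ≤ n * (Real.exp ((B + 4 + CQ) * (1 + a + |k|)) * K ^ 2) := by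
      calc ∑ i, N2 (g i) ≤ ∑ i : Fin n, Real.exp ((B + 4 + CQ) * (1 + a + |k|)) * K ^ 2 :=
            Finset.sum_le_sum fun i _ => (hgN i).trans
              (mul_le_mul_of_nonneg_right (Real.exp_le_exp.2 hBle) (sq_nonneg K))
        _ = _ := by rw [Finset.sum_const, Finset.card_univ, Fintype.card_fin, nsmul_eq_mul]
    rw [mul_comm]
    exact mul_le_mul_of_nonneg_right h1 (Finset.sum_nonneg fun i _ => sq_nonneg _)
  · -- the form
    choose w' hw'0 hw'F hw's using hex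
    set f : ℝ → ℂ := lc g c with hf
    have hfH : F.Hn a ν f := lc_Hn hg c
    have hD : Dom f := hfH.hd.dom ha0
    set P : ℝ := P0 * Real.exp (2 * a) with hP
    have hPp : 0 < P := by positivity
    set S2 : ℝ := ∑ i, ‖c i‖ ^ 2 with hS2
    have hS20 : 0 ≤ S2 := Finset.sum_nonneg fun i _ => sq_nonneg _
    set M' : ℝ := (2 * Ck * P + P ^ 2) * τ with hM'
    have hM'0 : 0 ≤ M' := by positivity
    -- the kernel
    have hTb' : ∀ i, ∀ w : ℂ, |w.re| ≤ 1 → ‖TT κ (-(γ i * I) + w)‖ ≤ Ck * (1 / (1 + |w.im - γ i|)) := by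
      intro i w hw
      have e1 : (-(γ i * I) + w).re = w.re := by simp
      have e2 : (-(γ i * I) + w).im = w.im - γ i := by simp; ring
      have h1 := hκd (-(γ i * I) + w) (by rw [e1]; exact hw)
      rw [e2] at h1
      exact h1.trans (cube_le _ hCk.le)
    -- at one zero
    have hpt : ∀ ρ : Zt (D := zd), (ω ρ : ℝ) * (GG f f ((ρ : ℂ) - 1 / 2)).re ≤
        (∑ i, ‖c i‖ ^ 2 * (if ρ = (⟨1 / 2 + w' i, hw'0 i⟩ : Zt (D := zd)) then -c0 else 0)) +
        ∑ i, 2 * M' * S2 * ((mu ρ : ℝ) * (1 / (1 + ((ρ : ℂ).im - 0) ^ 2)) +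
          (mu ρ : ℝ) * (1 / (1 + ((ρ : ℂ).im - γ i) ^ 2))) := by
      intro ρ
      set w := (ρ : ℂ) - 1 / 2 with hw
      have hre : |w.re| ≤ 1 := half_re ρ
      have him : w.im = (ρ : ℂ).im := by rw [hw]; simp
      have hρw : (ρ : ℂ) = 1 / 2 + w := by rw [hw]; ring
      have hX : L.X (1 / 2 + w) = 0 := by
        rw [← hρw]
        exact ρ.2
      have hre' : |(-conj w).re| ≤ 1 := by
        have : (-conj w).re = -w.re := by simp
        rw [this, abs_neg]; exact hre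
      have him' : (-conj w).im = w.im := by simp
      have hFle : ∀ i, ‖F0 i w‖ ≤ 1 ∧ ‖F0 i (-conj w)‖ ≤ 1 := by
        intro i
        rcases hzero i w hX with h1 | h1
        · rw [h1.1, h1.2]; simp
        · rw [h1.2.1, norm_mul, h1.1, Complex.norm_real, Real.norm_eq_abs]
          rcases hs i with h2 | h2 <;> rw [h2] <;> simp
      set R : ℝ := ∑ i, ‖c i‖ * (1 / (1 + |w.im|) + 1 / (1 + |w.im - γ i|)) with hR
      have hR0 : 0 ≤ R := Finset.sum_nonneg fun i _ => by positivity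
      have hAbd : ∀ (u : ℂ), |u.re| ≤ 1 → u.im = w.im → (∀ i, ‖F0 i u‖ ≤ 1) →
          ‖∑ i, c i * (F0 i u * TT κ (-(γ i * I) + u))‖ ≤ Ck * R := by
        intro u hu hui hFu
        refine (norm_sum_le _ _).trans ?_
        rw [hR, Finset.mul_sum]
        refine Finset.sum_le_sum fun i _ => ?_
        rw [norm_mul, norm_mul]
        have h1 := hTb' i u hu
        rw [hui] at h1
        have h2 : ‖F0 i u‖ * ‖TT κ (-(γ i * I) + u)‖ ≤ 1 * (Ck * (1 / (1 + |w.im - γ i|))) :=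
          mul_le_mul (hFu i) h1 (norm_nonneg _) zero_le_one
        have h3 : (0 : ℝ) ≤ 1 / (1 + |w.im|) := by positivity
        calc ‖c i‖ * (‖F0 i u‖ * ‖TT κ (-(γ i * I) + u)‖)
            ≤ ‖c i‖ * (1 * (Ck * (1 / (1 + |w.im - γ i|)))) :=
              mul_le_mul_of_nonneg_left h2 (norm_nonneg _)
          _ ≤ Ck * (‖c i‖ * (1 / (1 + |w.im|) + 1 / (1 + |w.im - γ i|))) := by
              have h4 : 0 ≤ Ck * ‖c i‖ * (1 / (1 + |w.im|)) := by positivity
              nlinarith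
      have hEbd : ∀ (u : ℂ), |u.re| ≤ 1 → u.im = w.im →
          ‖∑ i, c i * (TT (g i) u - F0 i u * TT κ (-(γ i * I) + u))‖ ≤ P * τ * R := by
        intro u hu hui
        refine (norm_sum_le _ _).trans ?_
        rw [hR, Finset.mul_sum]
        refine Finset.sum_le_sum fun i _ => ?_
        rw [norm_mul]
        have h1 := hgT i u hu
        rw [hui] at h1
        calc ‖c i‖ * ‖TT (g i) u - F0 i u * TT κ (-(γ i * I) + u)‖
            ≤ ‖c i‖ * (P * τ * (1 / (1 + |w.im|) + 1 / (1 + |w.im - γ i|))) :=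
              mul_le_mul_of_nonneg_left h1 (norm_nonneg _)
          _ = _ := by ring
      have hTTf : ∀ u : ℂ, TT f u = (∑ i, c i * (F0 i u * TT κ (-(γ i * I) + u))) +
          ∑ i, c i * (TT (g i) u - F0 i u * TT κ (-(γ i * I) + u)) := by
        intro u
        rw [hf, lc_TT (fun i => (hg i).1) c u, ← Finset.sum_add_distrib]
        refine Finset.sum_congr rfl fun i _ => ?_
        ring
      have hωμ : |(ω ρ : ℝ)| ≤ (mu ρ : ℝ) := hWt.1 ρ ρ.2
      have hp2 := ptw2 (∑ i, c i * (F0 i w * TT κ (-(γ i * I) + w)))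
        (∑ i, c i * (F0 i (-conj w) * TT κ (-(γ i * I) + -conj w)))
        (∑ i, c i * (TT (g i) w - F0 i w * TT κ (-(γ i * I) + w)))
        (∑ i, c i * (TT (g i) (-conj w) - F0 i (-conj w) * TT κ (-(γ i * I) + -conj w)))
        (ω ρ) (mu ρ) Ck P τ R hωμ hCk.le hPp.le hτ0.le hτ1 hR0
        (hAbd w hre rfl fun i => (hFle i).1) (hAbd (-conj w) hre' him' fun i => (hFle i).2)
        (hEbd w hre rfl) (hEbd (-conj w) hre' him')
      rw [← hTTf w, ← hTTf (-conj w)] at hp2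
      have hmn := main2 (ω := (ω ρ : ℝ)) hc0 hκp hs c (γ := γ) (F := F0) (w := w)
        (fun i => by
          have h1 := hzero i w hX
          rwa [← hρw] at h1)
        (fun i j hij => hdis i j w hij hX) w' hw'F (fun i hi => by
          have h1 := hw's i
          rw [hi, ← hρw] at h1
          exact h1)
      have hR2 : R ^ 2 ≤ S2 * ∑ i, (1 / (1 + |w.im|) + 1 / (1 + |w.im - γ i|)) ^ 2 :=
        Finset.sum_mul_sq_le_sq_mul_sq _ _ _
      have h10 : ∀ i, (1 / (1 + |w.im|) + 1 / (1 + |w.im - γ i|)) ^ 2 ≤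
          2 * (1 / (1 + (w.im - 0) ^ 2) + 1 / (1 + (w.im - γ i) ^ 2)) := by
        intro i
        have g1 := pq w.im
        have g2 := pq (w.im - γ i)
        rw [sub_zero]
        nlinarith [sq_nonneg (1 / (1 + |w.im|) - 1 / (1 + |w.im - γ i|))]
      have hμ0 : (0 : ℝ) ≤ (mu ρ : ℝ) := Nat.cast_nonneg _
      have h11 : (mu ρ : ℝ) * ((2 * Ck * P + P ^ 2) * τ * R ^ 2) ≤
          ∑ i, 2 * M' * S2 * ((mu ρ : ℝ) * (1 / (1 + ((ρ : ℂ).im - 0) ^ 2)) +
          (mu ρ : ℝ) * (1 / (1 + ((ρ : ℂ).im - γ i) ^ 2))) := by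
        have h12 : R ^ 2 ≤ S2 * ∑ i, 2 * (1 / (1 + (w.im - 0) ^ 2) + 1 / (1 + (w.im - γ i) ^ 2)) :=
          hR2.trans (mul_le_mul_of_nonneg_left (Finset.sum_le_sum fun i _ => h10 i) hS20)
        calc (mu ρ : ℝ) * ((2 * Ck * P + P ^ 2) * τ * R ^ 2) ≤ (mu ρ : ℝ) * (M' *
              (S2 * ∑ i, 2 * (1 / (1 + (w.im - 0) ^ 2) + 1 / (1 + (w.im - γ i) ^ 2)))) :=
              mul_le_mul_of_nonneg_left (mul_le_mul_of_nonneg_left h12 hM'0) hμ0
          _ = _ := by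
              rw [Finset.mul_sum, Finset.mul_sum, Finset.mul_sum]
              refine Finset.sum_congr rfl fun i _ => ?_
              rw [him]
              ring
      have h13 : ∑ i, ‖c i‖ ^ 2 * (if w' i = w then -c0 else 0) =
          ∑ i, ‖c i‖ ^ 2 * (if ρ = (⟨1 / 2 + w' i, hw'0 i⟩ : Zt (D := zd)) then -c0 else 0) := by
        refine Finset.sum_congr rfl fun i _ => ?_
        congr 1
        refine if_congr ?_ rfl rfl
        constructor
        · intro h1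
          apply Subtype.ext
          change (ρ : ℂ) = 1 / 2 + w' i
          rw [h1, hρw]
        · intro h1
          have h2 : (ρ : ℂ) = 1 / 2 + w' i := congrArg Subtype.val h1
          rw [hw, h2]
          ring
      rw [← h13]
      calc (ω ρ : ℝ) * (GG f f w).re = (ω ρ : ℝ) * (TT f w * conj (TT f (-conj w))).re := rfl
        _ ≤ _ := hp2
        _ ≤ _ := add_le_add hmn h11
    -- the sum over the zeros
    have hsumL : Summable (fun ρ : Zt (D := zd) => (ω ρ : ℝ) * (GG f f ((ρ : ℂ) - 1 / 2)).re) := by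
      refine Summable.of_norm_bounded (summable_GG hD hD).norm fun ρ => ?_
      rw [norm_mul, norm_mul, Complex.norm_natCast, Real.norm_eq_abs, Real.norm_eq_abs]
      exact mul_le_mul (hWt.1 ρ ρ.2) (Complex.abs_re_le_norm _) (abs_nonneg _) (Nat.cast_nonneg _)
    have hs0 := zsummable (D := zd (L := L)) 0
    have hR1 : HasSum (fun ρ : Zt (D := zd) => ∑ i, ‖c i‖ ^ 2 *
        (if ρ = (⟨1 / 2 + w' i, hw'0 i⟩ : Zt (D := zd)) then -c0 else 0))
        (∑ i, ‖c i‖ ^ 2 * (-c0)) := by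
      refine hasSum_sum fun i _ => ?_
      exact (hasSum_ite_eq (⟨1 / 2 + w' i, hw'0 i⟩ : Zt (D := zd)) (-c0)).mul_left _
    have hR2 : HasSum (fun ρ : Zt (D := zd) => ∑ i, 2 * M' * S2 *
        ((mu ρ : ℝ) * (1 / (1 + ((ρ : ℂ).im - 0) ^ 2)) +
          (mu ρ : ℝ) * (1 / (1 + ((ρ : ℂ).im - γ i) ^ 2))))
        (∑ i, 2 * M' * S2 * ((∑' ρ : Zt (D := zd), (mu ρ : ℝ) * (1 / (1 + ((ρ : ℂ).im - 0) ^ 2))) +
          ∑' ρ : Zt (D := zd), (mu ρ : ℝ) * (1 / (1 + ((ρ : ℂ).im - γ i) ^ 2)))) := by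
      refine hasSum_sum fun i _ => ?_
      exact (hs0.hasSum.add (zsummable (D := zd) (γ i)).hasSum).mul_left _
    have hle := hasSum_le hpt hsumL.hasSum (hR1.add hR2)
    have hQS : QS (D := zd) ω f = ∑' ρ : Zt (D := zd), (ω ρ : ℝ) * (GG f f ((ρ : ℂ) - 1 / 2)).re := rfl
    rw [hQS]
    refine hle.trans ?_
    rw [← Finset.sum_mul, ← hS2]
    rcases Nat.eq_zero_or_pos n with hn | hn
    · subst hn
      simp [hS2]
    have hΓ : 0 ≤ Γ := (abs_nonneg _).trans (hγ ⟨0, hn⟩)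
    have hE : 2 * (2 * Ck * P + P ^ 2) * Kz * 4 ≤ Real.exp ((B + 4 + CQ) * (1 + a + |k|)) := by
      have h2 : 2 * Ck * P + P ^ 2 ≤ (2 * Ck * P0 + P0 ^ 2) * Real.exp (4 * a) := by
        have h3 : Real.exp (2 * a) ≤ Real.exp (4 * a) := by
          apply Real.exp_le_exp.2
          linarith
        have h4 : Real.exp (2 * a) ^ 2 = Real.exp (4 * a) := by
          rw [← Real.exp_nat_mul]; congr 1; push_cast; ring
        have h5 : 2 * Ck * P ≤ 2 * Ck * P0 * Real.exp (4 * a) := by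
          rw [hP]
          have : 0 ≤ 2 * Ck * P0 := by positivity
          nlinarith
        have h6 : P ^ 2 = P0 ^ 2 * Real.exp (4 * a) := by
          rw [hP, mul_pow, h4]
        rw [h6]
        linarith
      have h7 : CQ ≤ Real.exp CQ := by linarith [Real.add_one_le_exp CQ]
      calc 2 * (2 * Ck * P + P ^ 2) * Kz * 4
          ≤ 2 * ((2 * Ck * P0 + P0 ^ 2) * Real.exp (4 * a)) * Kz * 4 := by
            refine mul_le_mul_of_nonneg_right (mul_le_mul_of_nonneg_right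
              (mul_le_mul_of_nonneg_left h2 (by norm_num)) hKz.le) (by norm_num)
        _ = CQ * Real.exp (4 * a) := by rw [hCQ]; ring
        _ ≤ Real.exp CQ * Real.exp (4 * a) := mul_le_mul_of_nonneg_right h7 (Real.exp_pos _).le
        _ = Real.exp (CQ + 4 * a) := (Real.exp_add _ _).symm
        _ ≤ _ := by
            apply Real.exp_le_exp.2
            have e1 : 0 ≤ B * (1 + a + |k|) := mul_nonneg hB (by linarith)
            have e2 : 0 ≤ CQ * (a + |k|) := mul_nonneg hCQp.le (by linarith)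
            nlinarith
    have hbi : ∀ i, (∑' ρ : Zt (D := zd), (mu ρ : ℝ) * (1 / (1 + ((ρ : ℂ).im - 0) ^ 2))) +
          ∑' ρ : Zt (D := zd), (mu ρ : ℝ) * (1 / (1 + ((ρ : ℂ).im - γ i) ^ 2)) ≤ Kz * (4 * (1 + Γ)) := by
      intro i
      have h2 := hz 0
      have h3 := hz (γ i)
      have h4 := Lg_le_add 0
      have h5 := Lg_le_add (γ i)
      rw [abs_zero] at h4
      have h6 := hγ i
      have h7 : Kz * Lg 0 + Kz * Lg (γ i) ≤ Kz * (4 * (1 + Γ)) := by
        rw [← mul_add]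
        refine mul_le_mul_of_nonneg_left ?_ hKz.le
        linarith
      linarith
    have hn1 : (n : ℝ) ≤ (n : ℝ) ^ 2 := by
      have h1 : (1 : ℝ) ≤ n := by exact_mod_cast hn
      nlinarith
    have hsum2 : ∑ i, 2 * M' * S2 * ((∑' ρ : Zt (D := zd), (mu ρ : ℝ) * (1 / (1 + ((ρ : ℂ).im - 0) ^ 2))) +
          ∑' ρ : Zt (D := zd), (mu ρ : ℝ) * (1 / (1 + ((ρ : ℂ).im - γ i) ^ 2))) ≤
        n * (2 * M' * S2 * (Kz * (4 * (1 + Γ)))) := by
      calc _ ≤ ∑ i : Fin n, 2 * M' * S2 * (Kz * (4 * (1 + Γ))) :=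
            Finset.sum_le_sum fun i _ => mul_le_mul_of_nonneg_left (hbi i) (by positivity)
        _ = _ := by rw [Finset.sum_const, Finset.card_univ, Fintype.card_fin, nsmul_eq_mul]
    have hX1 : 2 * M' * (Kz * (4 * (1 + Γ))) ≤
        Real.exp ((B + 4 + CQ) * (1 + a + |k|)) * (1 + Γ) * τ := by
      have h1 : 0 ≤ (1 + Γ) * τ := by positivity
      calc 2 * M' * (Kz * (4 * (1 + Γ))) = (2 * (2 * Ck * P + P ^ 2) * Kz * 4) * ((1 + Γ) * τ) := by
            rw [hM']; ring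
        _ ≤ Real.exp ((B + 4 + CQ) * (1 + a + |k|)) * ((1 + Γ) * τ) :=
            mul_le_mul_of_nonneg_right hE h1
        _ = _ := by ring
    have hX2 : (n : ℝ) * (2 * M' * S2 * (Kz * (4 * (1 + Γ)))) ≤
        (n : ℝ) ^ 2 * (Real.exp ((B + 4 + CQ) * (1 + a + |k|)) * (1 + Γ) * τ) * S2 := by
      calc (n : ℝ) * (2 * M' * S2 * (Kz * (4 * (1 + Γ))))
          = (n : ℝ) * ((2 * M' * (Kz * (4 * (1 + Γ)))) * S2) := by ring
        _ ≤ (n : ℝ) ^ 2 * ((Real.exp ((B + 4 + CQ) * (1 + a + |k|)) * (1 + Γ) * τ) * S2) :=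
            mul_le_mul hn1 (mul_le_mul_of_nonneg_right hX1 hS20) (by positivity) (by positivity)
        _ = _ := by ring
    calc S2 * (-c0) + _ ≤ S2 * (-c0) + (n : ℝ) * (2 * M' * S2 * (Kz * (4 * (1 + Γ)))) :=
          add_le_add le_rfl hsum2
      _ ≤ S2 * (-c0) + (n : ℝ) ^ 2 * (Real.exp ((B + 4 + CQ) * (1 + a + |k|)) * (1 + Γ) * τ) * S2 :=
          add_le_add le_rfl hX2
      _ = _ := by ring

end Pool.Agent.Q149.IX
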